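import Mathlib

/-!
# Universally injective Banach spaces: the definitions used in the statement
(problem MP_faf25a_an)
-/

set_option autoImplicit false

namespace USI3

open Set
open scoped Cardinal

/-- Density character: the least cardinality of a dense subset. -/
noncomputable def dens.{v} (X : Type v) [TopologicalSpace X] : Cardinal.{v} :=
  sInf {c | ∃ s : Set X, Dense s ∧ #s = c}

/-- `E` is universally `κ`-injective (with respect to all real Banach spaces `W` in the universe `v`): for every Banach
space `W` and every closed subspace `S` of `W` with `dens S < κ`, every bounded operator `S → E` extends to a bounded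
operator `W → E`. -/
def UnivInj.{v, u} (κ : Cardinal.{v}) (E : Type u) [NormedAddCommGroup E] [NormedSpace ℝ E] : Prop :=
  ∀ (W : Type v) [NormedAddCommGroup W] [NormedSpace ℝ W] [CompleteSpace W] (S : Submodule ℝ W),
    IsClosed (S : Set W) → dens S < κ → ∀ t : S →L[ℝ] E, ∃ T : W →L[ℝ] E, ∀ y : S, T (y : W) = t y

end USI3
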