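import Mathlib
import Pool.Agent.USI3.Base

/-!
# Universal separable injectivity is not a three-space property: definitions
(problem MP_faf25a_an)
-/

set_option autoImplicit false

namespace USI3

open Filter Topology Set
open scoped ENNReal Cardinal

/-- The Banach space of bounded real functions on `ι`. -/
abbrev Linf.{u} (ι : Type u) : Type u := lp (fun _ : ι => ℝ) ∞

/-- Indicator function of a set, as a bounded function. -/
noncomputable def ind {ι : Type*} (a : Set ι) : Linf ι :=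
  ⟨a.indicator (fun _ => (1 : ℝ)), memℓp_infty ⟨1, by
    rintro _ ⟨i, rfl⟩
    simp only [Set.indicator]
    split_ifs <;> simp⟩⟩

/-- Countable subsets of the space of bounded sequences, ordered by inclusion. -/
abbrev P : Type := {s : Set (Linf ℕ) // s.Countable}

/-- Every functional `NuSpec A ζ ν` kills the countable set `ζ` and all finitely supported sequences, has norm at most `2`, and takes
the value `1` at the indicator function of some subset of `A` (if `A` is infinite). -/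
def NuSpec (A : Set ℕ) (ζ : P) (ν : Linf ℕ →L[ℝ] ℝ) : Prop :=
  ‖ν‖ ≤ 2 ∧ (∀ b ∈ ζ.1, ν b = 0) ∧ (∀ i : ℕ, ν (ind {i}) = 0) ∧ (A.Infinite → ∃ a ⊆ A, ν (ind a) = 1)

/-- A functional as in `NuSpec` (it exists by `exists_nu`). -/
noncomputable def nu (A : Set ℕ) (ζ : P) : Linf ℕ →L[ℝ] ℝ := Classical.epsilon (NuSpec A ζ)

/-- The index set of the kernel space: a set `A`, a number `n`, an increasing sequence of countable sets `z k`, and labels
`l k` in `[-1, 1]`. -/
structure Pt : Type where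
  /-- the set -/
  A : Set ℕ
  /-- the length -/
  n : ℕ
  /-- the increasing sequence of countable sets -/
  z : ℕ → P
  /-- the labels -/
  l : ℕ → ℝ
  mono : Monotone z
  hl : ∀ k, |l k| ≤ 1

/-- The `k`-th row of a bounded function on `ℕ × ℕ`. -/
noncomputable def row (k : ℕ) : Linf (ℕ × ℕ) →L[ℝ] Linf ℕ :=
  LinearMap.mkContinuous
    { toFun := fun h => ⟨fun i => (h : ℕ × ℕ → ℝ) (i, k), memℓp_infty ⟨‖h‖, by
        rintro _ ⟨i, rfl⟩
        exact lp.norm_apply_le_norm (by simp) h (i, k)⟩⟩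
      map_add' := fun _ _ => rfl
      map_smul' := fun _ _ => rfl } 1 (fun h => by
        rw [one_mul]
        exact lp.norm_le_of_forall_le (norm_nonneg h) fun i => lp.norm_apply_le_norm (by simp) h (i, k))

/-- The bounded function on `ℕ × ℕ` with `k`-th row `f` and all other rows zero. -/
noncomputable def lift (k : ℕ) : Linf ℕ →L[ℝ] Linf (ℕ × ℕ) :=
  LinearMap.mkContinuous
    { toFun := fun f => ⟨fun q => if q.2 = k then (f : ℕ → ℝ) q.1 else 0, memℓp_infty ⟨‖f‖, by
        rintro _ ⟨q, rfl⟩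
        dsimp only
        split_ifs
        · exact lp.norm_apply_le_norm (by simp) f q.1
        · simp⟩⟩
      map_add' := fun f g => by
        ext q
        by_cases h : q.2 = k <;> simp [h]
      map_smul' := fun c f => by
        ext q
        by_cases h : q.2 = k <;> simp [h] } 1 (fun f => by
        rw [one_mul]
        refine lp.norm_le_of_forall_le (norm_nonneg f) fun q => ?_
        dsimp
        split_ifs
        · exact lp.norm_apply_le_norm (by simp) f q.1
        · simp)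

/-- The functionals `φ_γ` on the bounded functions on `ℕ × ℕ`. -/
noncomputable def phi (γ : Pt) : Linf (ℕ × ℕ) →L[ℝ] ℝ :=
  ∑ k ∈ Finset.range γ.n, γ.l (k + 1) • (nu γ.A (γ.z k)).comp (row k)

/-- `γ` and `γ'` agree before `ζ`. -/
def rel (ζ : P) (γ γ' : Pt) : Prop :=
  γ.A = γ'.A ∧ γ.n = γ'.n ∧ ∀ k, (ζ ≤ γ.z k ∧ ζ ≤ γ'.z k) ∨ (γ.z k = γ'.z k ∧ γ.l k = γ'.l k)

/-- The function `F` depends only on the part of `γ` before `ζ`. -/
def Inv (ζ : P) (F : Pt → ℝ) : Prop := ∀ γ γ', rel ζ γ γ' → F γ = F γ'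

/-- The union of two countable sets. -/
def sup (ζ ζ' : P) : P := ⟨ζ.1 ∪ ζ'.1, ζ.2.union ζ'.2⟩

theorem le_sup_l (ζ ζ' : P) : ζ ≤ sup ζ ζ' := Set.subset_union_left (s := ζ.1) (t := ζ'.1)

theorem le_sup_r (ζ ζ' : P) : ζ' ≤ sup ζ ζ' := Set.subset_union_right (s := ζ.1) (t := ζ'.1)

theorem rel_mono {ζ ζ' : P} (h : ζ ≤ ζ') {γ γ' : Pt} (hr : rel ζ' γ γ') : rel ζ γ γ' :=
  ⟨hr.1, hr.2.1, fun k => (hr.2.2 k).imp (fun q => ⟨h.trans q.1, h.trans q.2⟩) id⟩

theorem Inv_mono {ζ ζ' : P} (h : ζ ≤ ζ') {F : Pt → ℝ} (hF : Inv ζ F) : Inv ζ' F :=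
  fun γ γ' hr => hF γ γ' (rel_mono h hr)

/-- The kernel: all bounded functions on `Pt` which depend, for some `ζ`, only on the part of `γ` before `ζ`. -/
def EE : Submodule ℝ (Linf Pt) where
  carrier := {g | ∃ ζ, Inv ζ (g : Pt → ℝ)}
  add_mem' := by
    rintro f g ⟨ζ, hf⟩ ⟨ζ', hg⟩
    refine ⟨sup ζ ζ', fun γ γ' hr => ?_⟩
    have h1 := Inv_mono (le_sup_l ζ ζ') hf γ γ' hr
    have h2 := Inv_mono (le_sup_r ζ ζ') hg γ γ' hr
    simp only [lp.coeFn_add, Pi.add_apply, h1, h2]
  zero_mem' := ⟨⟨∅, Set.countable_empty⟩, fun γ γ' _ => rfl⟩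
  smul_mem' := by
    rintro c f ⟨ζ, hf⟩
    refine ⟨ζ, fun γ γ' hr => ?_⟩
    have h1 := hf γ γ' hr
    simp only [lp.coeFn_smul, Pi.smul_apply, h1]

/-- The middle space: all pairs `(g, h)` for which `γ ↦ g γ - φ_γ h` depends, for some `ζ`, only on the part of `γ` before `ζ`. -/
def XX : Submodule ℝ (Linf Pt × Linf (ℕ × ℕ)) where
  carrier := {p | ∃ ζ, Inv ζ (fun γ => (p.1 : Pt → ℝ) γ - phi γ p.2)}
  add_mem' := by
    rintro f g ⟨ζ, hf⟩ ⟨ζ', hg⟩
    refine ⟨sup ζ ζ', fun γ γ' hr => ?_⟩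
    have h1 := Inv_mono (le_sup_l ζ ζ') hf γ γ' hr
    have h2 := Inv_mono (le_sup_r ζ ζ') hg γ γ' hr
    simp only [Prod.fst_add, Prod.snd_add, lp.coeFn_add, Pi.add_apply, map_add] at h1 h2 ⊢
    linarith
  zero_mem' := ⟨⟨∅, Set.countable_empty⟩, fun γ γ' _ => by simp⟩
  smul_mem' := by
    rintro c f ⟨ζ, hf⟩
    refine ⟨ζ, fun γ γ' hr => ?_⟩
    have h1 := hf γ γ' hr
    simp only [Prod.smul_fst, Prod.smul_snd, lp.coeFn_smul, Pi.smul_apply, map_smul, smul_eq_mul] at h1 ⊢
    linear_combination c * h1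

/-- The quotient map `(g, h) ↦ h` of the middle space. -/
noncomputable def Q : XX →L[ℝ] Linf (ℕ × ℕ) :=
  (ContinuousLinearMap.snd ℝ (Linf Pt) (Linf (ℕ × ℕ))).comp XX.subtypeL

/-- The closed subspace `{(g, 0)}` of the middle space. -/
noncomputable def YY : Submodule ℝ XX := Q.ker

instance : IsClosed (YY : Set XX) := Q.isClosed_ker

end USI3
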