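import Pool.Agent.USI3.Defs

set_option autoImplicit false

namespace USI3

open Filter Topology Set
open scoped ENNReal Cardinal

private theorem ind_dist (a b : Set ℕ) (h : a ≠ b) : 1 ≤ ‖(ind a : Linf ℕ) - ind b‖ := by
  obtain ⟨i, hi⟩ : ∃ i, ¬ (i ∈ a ↔ i ∈ b) := by
    by_contra hc
    push Not at hc
    exact h (Set.ext hc)
  refine le_trans ?_ (lp.norm_apply_le_norm (by simp) ((ind a : Linf ℕ) - ind b) i)
  have e1 : (((ind a : Linf ℕ) - ind b : Linf ℕ) : ℕ → ℝ) i = a.indicator (fun _ => (1 : ℝ)) i - b.indicator (fun _ => (1 : ℝ)) i := rfl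
  rw [e1]
  by_cases h1 : i ∈ a <;> by_cases h2 : i ∈ b
  · exact absurd (iff_of_true h1 h2) hi
  · simp [h1, h2]
  · simp [h1, h2]
  · exact absurd (iff_of_false h1 h2) hi

/-- Existence of subsets far from a separable subspace. -/
theorem nu_uncountable (A : Set ℕ) (hA : A.Infinite) (D : Set (Linf ℕ)) (hD : D.Countable) :
    ∃ a ⊆ A, ∀ m ∈ (Submodule.span ℝ D).topologicalClosure, 1 / 2 ≤ ‖ind a - m‖ := by
  by_contra hcon
  push Not at hcon
  have hsep : TopologicalSpace.IsSeparable ((Submodule.span ℝ D).topologicalClosure : Set (Linf ℕ)) := by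
    rw [Submodule.topologicalClosure_coe]
    exact (hD.isSeparable.span).closure
  obtain ⟨C, hC, hMC⟩ := hsep
  have key : ∀ a : Set A, ∃ c ∈ C, ‖(ind (Subtype.val '' a) : Linf ℕ) - c‖ < 1 / 2 := by
    intro a
    obtain ⟨m, hm, hlt⟩ := hcon (Subtype.val '' a) (by rintro _ ⟨x, _, rfl⟩; exact x.2)
    have h1 := hMC hm
    rw [Metric.mem_closure_iff] at h1
    obtain ⟨c, hc, hd⟩ := h1 (1 / 2 - ‖(ind (Subtype.val '' a) : Linf ℕ) - m‖) (by linarith)
    refine ⟨c, hc, ?_⟩
    rw [dist_eq_norm] at hd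
    calc ‖(ind (Subtype.val '' a) : Linf ℕ) - c‖ = ‖((ind (Subtype.val '' a) : Linf ℕ) - m) + (m - c)‖ := by congr 1; abel
      _ ≤ _ := norm_add_le _ _
      _ < 1 / 2 := by linarith
  choose f hf hf2 using key
  have hinj : Function.Injective (fun a : Set A => (⟨f a, hf a⟩ : C)) := by
    intro a b hab
    have e : f a = f b := congrArg Subtype.val hab
    by_contra hne
    have h3 : (Subtype.val '' a : Set ℕ) ≠ Subtype.val '' b := fun h => hne (Set.image_injective.2 Subtype.val_injective h)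
    have h4 := ind_dist _ _ h3
    have h5 := hf2 a
    have h6 := hf2 b
    rw [← e] at h6
    have h7 : ‖(ind (Subtype.val '' a) : Linf ℕ) - ind (Subtype.val '' b)‖ < 1 := by
      calc ‖(ind (Subtype.val '' a) : Linf ℕ) - ind (Subtype.val '' b)‖ = ‖((ind (Subtype.val '' a) : Linf ℕ) - f a) - (ind (Subtype.val '' b) - f a)‖ := by congr 1; abel
        _ ≤ _ := norm_sub_le _ _
        _ < 1 := by linarith
    linarith
  haveI : Countable C := hC.to_subtype
  haveI : Countable (Set A) := hinj.countable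
  haveI : Infinite A := hA.to_subtype
  obtain ⟨g, hg⟩ := exists_injective_nat (Set A)
  exact Function.cantor_injective (fun s => Infinite.natEmbedding A (g s)) ((Infinite.natEmbedding A).injective.comp hg)
end USI3
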