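import Pool.Agent.USI3.Defs
import Pool.Agent.USI3.JA0

set_option autoImplicit false

namespace USI3

open Filter Topology Set
open scoped ENNReal Cardinal

/-- If `A` is infinite apply `nu_uncountable` with `D = ζ ∪ {ind {i} : i}` and then the Hahn-Banach theorem in the quotient by
`M = (Submodule.span ℝ D).topologicalClosure` (`exists_dual_vector` in the quotient, `IsClosed` instance by `haveI`; the norm of the class
of `ind a` is at least `1/2`), or extend the functional `m + c • ind a ↦ c` from the span of `M` and `ind a`: get `ν` with `ν = 0` on `M`,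
`ν (ind a) = 1`, `‖ν‖ ≤ 2`. If `A` is finite take `ν = 0`. -/
theorem exists_nu (A : Set ℕ) (ζ : P) : ∃ ν : Linf ℕ →L[ℝ] ℝ, NuSpec A ζ ν := by
  by_cases hA : A.Infinite
  · have hD : (ζ.1 ∪ Set.range (fun i : ℕ => ind ({i} : Set ℕ))).Countable :=
      ζ.2.union (Set.countable_range _)
    obtain ⟨a, ha, hdist⟩ := nu_uncountable A hA _ hD
    set D : Set (Linf ℕ) := ζ.1 ∪ Set.range (fun i : ℕ => ind ({i} : Set ℕ)) with hDdef
    set M : Submodule ℝ (Linf ℕ) := (Submodule.span ℝ D).topologicalClosure with hM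
    have hMc : IsClosed (M : Set (Linf ℕ)) := Submodule.isClosed_topologicalClosure _
    set x : Linf ℕ ⧸ M := M.mkQ (ind a) with hx
    have hxn : 1 / 2 ≤ ‖x‖ := by
      have h : 1 / 2 ≤ ‖(Submodule.Quotient.mk (ind a) : Linf ℕ ⧸ M)‖ := by
        refine le_of_forall_pos_le_add fun ε hε => ?_
        obtain ⟨m, hm, hlt⟩ := Submodule.Quotient.norm_mk_lt
          (Submodule.Quotient.mk (ind a) : Linf ℕ ⧸ M) hε
        have h1 : ind a - m ∈ M := (Submodule.Quotient.eq M).1 hm.symm
        have h2 := hdist (ind a - m) h1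
        rw [sub_sub_cancel] at h2
        exact h2.trans hlt.le
      exact h
    have hx0 : x ≠ 0 := by
      intro h
      rw [h, norm_zero] at hxn
      norm_num at hxn
    obtain ⟨g, hg1, hg2⟩ := exists_dual_vector ℝ x (norm_ne_zero_iff.2 hx0)
    have hxpos : 0 < ‖x‖ := norm_pos_iff.2 hx0
    refine ⟨‖x‖⁻¹ • (g.comp M.mkQL), ?_, ?_, ?_, ?_⟩
    · have h1 : ‖(g.comp M.mkQL)‖ ≤ 1 := by
        refine ContinuousLinearMap.opNorm_le_bound _ zero_le_one fun y => ?_
        calc ‖(g.comp M.mkQL) y‖ = ‖g (Submodule.Quotient.mk y)‖ := rfl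
          _ ≤ ‖g‖ * ‖(Submodule.Quotient.mk y : Linf ℕ ⧸ M)‖ := g.le_opNorm _
          _ ≤ 1 * ‖y‖ := by
            rw [hg1]
            exact mul_le_mul_of_nonneg_left (Submodule.Quotient.norm_mk_le _ y) zero_le_one
      rw [norm_smul, norm_inv, norm_norm]
      calc ‖x‖⁻¹ * ‖(g.comp M.mkQL)‖ ≤ 2 * 1 := by
            refine mul_le_mul ?_ h1 (norm_nonneg _) (by norm_num)
            rw [inv_le_comm₀ hxpos (by norm_num)]
            linarith
        _ = 2 := by norm_num
    · intro b hb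
      have hbM : b ∈ M := (Submodule.le_topologicalClosure _) (Submodule.subset_span (Or.inl hb))
      have h1 : M.mkQL b = 0 := (Submodule.Quotient.mk_eq_zero M).2 hbM
      simp [h1]
    · intro i
      have hbM : ind ({i} : Set ℕ) ∈ M :=
        (Submodule.le_topologicalClosure _) (Submodule.subset_span (Or.inr ⟨i, rfl⟩))
      have h1 : M.mkQL (ind ({i} : Set ℕ)) = 0 := (Submodule.Quotient.mk_eq_zero M).2 hbM
      simp [h1]
    · intro _
      refine ⟨a, ha, ?_⟩
      have h1 : (‖x‖⁻¹ • (g.comp M.mkQL)) (ind a) = ‖x‖⁻¹ * g x := rfl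
      rw [h1, hg2]
      exact inv_mul_cancel₀ hxpos.ne'
  · exact ⟨0, by simp, fun _ _ => rfl, fun _ => rfl, fun h => absurd h hA⟩

/-- `Classical.epsilon_spec`. -/
theorem nu_spec (A : Set ℕ) (ζ : P) : NuSpec A ζ (nu A ζ) :=
  Classical.epsilon_spec (exists_nu A ζ)

end USI3
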