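import Pool.Agent.USI3.Defs

set_option autoImplicit false

namespace USI3

open Filter Topology Set
open scoped ENNReal Cardinal

private theorem tendsto_eval {ι : Type} {x : ℕ → Linf ι} {p : Linf ι} (h : Tendsto x atTop (𝓝 p))
    (i : ι) : Tendsto (fun n => (x n : ι → ℝ) i) atTop (𝓝 ((p : ι → ℝ) i)) := by
  rw [tendsto_iff_norm_sub_tendsto_zero] at h ⊢
  refine squeeze_zero (fun n => norm_nonneg _) (fun n => ?_) h
  have := lp.norm_apply_le_norm (by simp : (∞ : ℝ≥0∞) ≠ 0) (x n - p) i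
  simpa using this

/-- `IsSeqClosed.isClosed`: if `x n → x` with `x n ∈ XX`, choose `ζ n` for `x n` and let `ζ` be the union of the `ζ n`; for fixed `γ γ'` with
`rel ζ γ γ'` the identity `(x n).1 γ - phi γ (x n).2 = (x n).1 γ' - phi γ' (x n).2` passes to the limit. -/
theorem XX_closed : IsClosed (XX : Set (Linf Pt × Linf (ℕ × ℕ))) := by
  apply IsSeqClosed.isClosed
  intro x p hx hlim
  choose ζ hζ using hx
  have hle : ∀ n, ζ n ≤ (⟨⋃ n, (ζ n).1, Set.countable_iUnion fun n => (ζ n).2⟩ : P) := fun n =>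
    Set.subset_iUnion (fun n => (ζ n).1) n
  refine ⟨⟨⋃ n, (ζ n).1, Set.countable_iUnion fun n => (ζ n).2⟩, fun γ γ' hr => ?_⟩
  have h1 : Tendsto (fun n => (x n).1) atTop (𝓝 p.1) := (continuous_fst.tendsto p).comp hlim
  have h2 : Tendsto (fun n => (x n).2) atTop (𝓝 p.2) := (continuous_snd.tendsto p).comp hlim
  have h3 : ∀ δ : Pt, Tendsto (fun n => ((x n).1 : Pt → ℝ) δ - phi δ (x n).2) atTop
      (𝓝 ((p.1 : Pt → ℝ) δ - phi δ p.2)) := fun δ =>
    (tendsto_eval h1 δ).sub (((phi δ).continuous.tendsto p.2).comp h2)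
  have h4 : ∀ n, ((x n).1 : Pt → ℝ) γ - phi γ (x n).2 = ((x n).1 : Pt → ℝ) γ' - phi γ' (x n).2 :=
    fun n => Inv_mono (hle n) (hζ n) γ γ' hr
  exact tendsto_nhds_unique (h3 γ) ((h3 γ').congr fun n => (h4 n).symm)

end USI3
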