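import Pool.Agent.USI3.Defs
import Pool.Agent.USI3.JA1

set_option autoImplicit false

namespace USI3

open Filter Topology Set
open scoped ENNReal Cardinal

/-- the summand -/
private noncomputable def cc (h : Linf (ℕ × ℕ)) (γ : Pt) (k : ℕ) : ℝ :=
  γ.l (k + 1) * nu γ.A (γ.z k) (row k h)

private lemma phi_eq (h : Linf (ℕ × ℕ)) (γ : Pt) :
    phi γ h = ∑ k ∈ Finset.range γ.n, cc h γ k := by
  unfold phi cc
  rw [ContinuousLinearMap.sum_apply]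
  refine Finset.sum_congr rfl fun k _ => ?_
  rfl

private lemma row_le (h : Linf (ℕ × ℕ)) (k : ℕ) : ‖row k h‖ ≤ ‖h‖ :=
  lp.norm_le_of_forall_le (norm_nonneg h) fun i => lp.norm_apply_le_norm (by simp) h (i, k)

private lemma cc_le (h : Linf (ℕ × ℕ)) (γ : Pt) (k : ℕ) : |cc h γ k| ≤ 2 * ‖h‖ := by
  unfold cc
  rw [abs_mul]
  have h1 : |nu γ.A (γ.z k) (row k h)| ≤ 2 * ‖h‖ := by
    have h2 := (nu γ.A (γ.z k)).le_opNorm (row k h)
    rw [Real.norm_eq_abs] at h2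
    have h3 := (nu_spec γ.A (γ.z k)).1
    have h4 := row_le h k
    calc |nu γ.A (γ.z k) (row k h)| ≤ ‖nu γ.A (γ.z k)‖ * ‖row k h‖ := h2
      _ ≤ 2 * ‖h‖ := mul_le_mul h3 h4 (norm_nonneg _) (by norm_num)
  calc |γ.l (k + 1)| * |nu γ.A (γ.z k) (row k h)| ≤ 1 * (2 * ‖h‖) :=
        mul_le_mul (γ.hl (k + 1)) h1 (abs_nonneg _) (by norm_num)
    _ = 2 * ‖h‖ := one_mul _

/-- the countable set of the rows -/
private noncomputable def zr (h : Linf (ℕ × ℕ)) : P :=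
  ⟨Set.range fun k => row k h, Set.countable_range _⟩

private lemma cc_zero (h : Linf (ℕ × ℕ)) (γ : Pt) (k : ℕ) (hk : zr h ≤ γ.z k) : cc h γ k = 0 := by
  unfold cc
  have h1 : row k h ∈ (γ.z k).1 := hk ⟨k, rfl⟩
  rw [(nu_spec γ.A (γ.z k)).2.1 _ h1, mul_zero]

open Classical in
/-- the lift of `h` -/
private noncomputable def gg (h : Linf (ℕ × ℕ)) (γ : Pt) : ℝ :=
  ∑ k ∈ Finset.range γ.n, if ¬ zr h ≤ γ.z k ∧ zr h ≤ γ.z (k + 1) then cc h γ k else 0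

open Classical in
/-- the difference -/
private noncomputable def dd (h : Linf (ℕ × ℕ)) (γ : Pt) : ℝ :=
  ∑ k ∈ Finset.range γ.n, if zr h ≤ γ.z (k + 1) then 0 else cc h γ k

private lemma gg_sub (h : Linf (ℕ × ℕ)) (γ : Pt) : gg h γ - phi γ h = - dd h γ := by
  classical
  rw [phi_eq]
  unfold gg dd
  rw [← Finset.sum_sub_distrib, ← Finset.sum_neg_distrib]
  refine Finset.sum_congr rfl fun k _ => ?_
  by_cases h1 : zr h ≤ γ.z k
  · have h2 : zr h ≤ γ.z (k + 1) := h1.trans (γ.mono (Nat.le_succ k))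
    have h3 : ¬ (¬ zr h ≤ γ.z k ∧ zr h ≤ γ.z (k + 1)) := fun q => q.1 h1
    rw [if_neg h3, if_pos h2, cc_zero h γ k h1]
    ring
  · by_cases h2 : zr h ≤ γ.z (k + 1)
    · rw [if_pos ⟨h1, h2⟩, if_pos h2]
      ring
    · have h3 : ¬ (¬ zr h ≤ γ.z k ∧ zr h ≤ γ.z (k + 1)) := fun q => h2 q.2
      rw [if_neg h3, if_neg h2]
      ring

private lemma gg_le (h : Linf (ℕ × ℕ)) (γ : Pt) : |gg h γ| ≤ 2 * ‖h‖ := by
  classical
  unfold gg
  by_cases hex : ∃ k ∈ Finset.range γ.n, ¬ zr h ≤ γ.z k ∧ zr h ≤ γ.z (k + 1)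
  · obtain ⟨k, hk, h1, h2⟩ := hex
    rw [Finset.sum_eq_single k]
    · rw [if_pos ⟨h1, h2⟩]
      exact cc_le h γ k
    · intro k' _ hne
      apply if_neg
      rintro ⟨h3, h4⟩
      rcases Nat.lt_or_gt_of_ne hne with hlt | hlt
      · exact h1 (h4.trans (γ.mono hlt))
      · exact h3 (h2.trans (γ.mono hlt))
    · intro hn
      exact absurd hk hn
  · have h0 : (∑ k ∈ Finset.range γ.n,
        if ¬ zr h ≤ γ.z k ∧ zr h ≤ γ.z (k + 1) then cc h γ k else 0) = 0 := by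
      refine Finset.sum_eq_zero fun k hk => ?_
      apply if_neg
      intro q
      exact hex ⟨k, hk, q⟩
    rw [h0, abs_zero]
    positivity

private lemma dd_inv (h : Linf (ℕ × ℕ)) : Inv (zr h) (fun γ => gg h γ - phi γ h) := by
  classical
  rintro γ γ' ⟨hA, hn, hk⟩
  simp only
  rw [gg_sub, gg_sub]
  unfold dd
  rw [hn]
  congr 1
  refine Finset.sum_congr rfl fun k _ => ?_
  rcases hk (k + 1) with ⟨h1, h2⟩ | ⟨h1, h2⟩
  · rw [if_pos h1, if_pos h2]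
  · rw [← h1]
    by_cases h3 : zr h ≤ γ.z (k + 1)
    · rw [if_pos h3, if_pos h3]
    · rw [if_neg h3, if_neg h3]
      rcases hk k with ⟨h4, _⟩ | ⟨h4, _⟩
      · exact absurd (h4.trans (γ.mono (Nat.le_succ k))) h3
      · unfold cc
        rw [h2, hA, h4]

/-- the lift of `h` as a bounded function -/
private noncomputable def gb (h : Linf (ℕ × ℕ)) : Linf Pt :=
  ⟨gg h, memℓp_infty ⟨2 * ‖h‖, by
    rintro _ ⟨γ, rfl⟩
    exact gg_le h γ⟩⟩

/-- Let `h : Linf (ℕ × ℕ)` and `ζ = {row k h : k ∈ ℕ}`, a countable set. If `ζ ≤ γ.z k` then `nu γ.A (γ.z k) (row k h) = 0` by `nu_spec`. Put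
`g γ = ∑ k ∈ range γ.n with ¬ ζ ≤ γ.z k ∧ ζ ≤ γ.z (k + 1), γ.l (k + 1) * nu γ.A (γ.z k) (row k h)`. As `γ.z` is monotone there is at most one
such `k`, so `|g γ| ≤ 2 * ‖h‖` and `g` is a bounded function; and `g γ - phi γ h = - ∑ k ∈ range γ.n with ¬ ζ ≤ γ.z (k + 1), ...` (for such `k`
also `¬ ζ ≤ γ.z k`), which is the same for `γ'` if `rel ζ γ γ'`: for every `k` with `¬ ζ ≤ γ.z (k + 1)` also `¬ ζ ≤ γ.z k`, hence
`γ.z (k+1) = γ'.z (k+1)`, `γ.l (k+1) = γ'.l (k+1)`, `γ.z k = γ'.z k`, and conversely. So `(g, h) ∈ XX`. -/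
theorem Q_surj : Function.Surjective Q := by
  intro h
  exact ⟨⟨(gb h, h), ⟨zr h, dd_inv h⟩⟩, rfl⟩

end USI3
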