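import Pool.Agent.USI3.Defs
import Pool.Agent.USI3.JA10
import Pool.Agent.USI3.JA11

set_option autoImplicit false

namespace USI3

open Filter Topology Set
open scoped ENNReal Cardinal

/-- `Submodule.liftQL` of `Q` is a bounded bijection from the Banach space `XX ⧸ YY` (`XX` is complete by `XX_closed`) to `Linf (ℕ × ℕ)`:
`ContinuousLinearEquiv.ofBijective`. -/
theorem quot_equiv : Nonempty ((XX ⧸ YY) ≃L[ℝ] Linf (ℕ × ℕ)) := by
  have hc : CompleteSpace XX := XX_closed.completeSpace_coe
  have hcl : IsClosed (YY : Set XX) := inferInstance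
  let i1 : NormedAddCommGroup (XX ⧸ YY) := Submodule.Quotient.normedAddCommGroup YY
  let i2 : NormedSpace ℝ (XX ⧸ YY) := Submodule.Quotient.normedSpace YY ℝ
  have i3 : CompleteSpace (XX ⧸ YY) := Submodule.Quotient.completeSpace YY
  have hk : YY ≤ Q.ker := le_rfl
  have h1 : (YY.liftQL Q hk).ker = ⊥ := by
    rw [Submodule.toLinearMap_liftQL]
    exact Submodule.ker_liftQ_eq_bot _ _ _ le_rfl
  have h2 : (YY.liftQL Q hk).range = ⊤ := by
    rw [Submodule.toLinearMap_liftQL, Submodule.range_liftQ]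
    exact LinearMap.range_eq_top.2 Q_surj
  exact ⟨ContinuousLinearEquiv.ofBijective (E := XX ⧸ YY) (F := Linf (ℕ × ℕ)) (YY.liftQL Q hk) h1 h2⟩

end USI3
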