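import Pool.Agent.USI3.Defs

set_option autoImplicit false

namespace USI3

open Filter Topology Set
open scoped ENNReal Cardinal

/-- The usual almost disjoint family of size continuum: `F x` is the set of codes of the finite initial pieces of `x`, for instance the range
of `n ↦ Encodable.encode ((List.range n).map x)`. -/
theorem ad_family : ∃ F : (ℕ → Bool) → Set ℕ, (∀ x, (F x).Infinite) ∧ ∀ x y, x ≠ y → (F x ∩ F y).Finite := by
  refine ⟨fun x => Set.range (fun n : ℕ => Encodable.encode ((List.range n).map x)), fun x => ?_, fun x y hxy => ?_⟩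
  · apply Set.infinite_range_of_injective
    intro n m h
    have h1 := Encodable.encode_injective h
    have h2 := congrArg List.length h1
    simpa using h2
  · obtain ⟨k, hk⟩ := Function.ne_iff.1 hxy
    apply ((Set.finite_Iic k).image (fun n : ℕ => Encodable.encode ((List.range n).map x))).subset
    rintro c ⟨⟨n, hn⟩, ⟨m, hm⟩⟩
    refine ⟨n, ?_, hn⟩
    have h1 : (List.range n).map x = (List.range m).map y := Encodable.encode_injective (hn.trans hm.symm)
    have h2 : n = m := by simpa using congrArg List.length h1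
    subst h2
    rw [Set.mem_Iic]
    by_contra hlt
    have hlt' : k < n := by omega
    apply hk
    have h3 := congrArg (fun l : List Bool => l[k]?) h1
    simpa [hlt'] using h3

/-- Let `F` be the almost disjoint family of `ad_family`. If the conclusion fails for `A = F x` for all `x : ℕ → Bool`, there are `m x` and
`f x` supported in `F x` with `ρ (m x) (f x) ≠ 0`; scale: `‖f x‖ ≤ 1` and `ρ (m x) (f x) > 1/(j x + 1)` for some `j x : ℕ`. The map
`x ↦ (m x, j x)` to `ℕ × ℕ` has an infinite fibre (`ℕ → Bool` is uncountable); choose `N` different points `x` in it, `N/(j+1) > ‖ρ m‖`, and a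
finite set `G` which contains all intersections of two of the `N` sets `F x`. The sum `g` of the `N` functions `f x` times the indicator
function of the complement of `G` has norm `≤ 1`, and `ρ m g = ∑ ρ m (f x) > N/(j+1)`, because `ρ m` vanishes on finitely supported functions.
Contradiction. -/
theorem ad_lemma (ρ : ℕ → (Linf ℕ →L[ℝ] ℝ)) (hρ : ∀ m i, ρ m (ind {i}) = 0) :
    ∃ A : Set ℕ, A.Infinite ∧ ∀ m, ∀ f : Linf ℕ, (∀ i, i ∉ A → (f : ℕ → ℝ) i = 0) → ρ m f = 0 := by
  classical
  by_contra hcon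
  push Not at hcon
  obtain ⟨F, hF1, hF2⟩ := ad_family
  choose m f hf hne using fun x => hcon (F x) (hF1 x)
  set f' : (ℕ → Bool) → Linf ℕ := fun x => (ρ (m x) (f x))⁻¹ • f x with hf'
  have hf'0 : ∀ x i, i ∉ F x → (f' x : ℕ → ℝ) i = 0 := by
    intro x i hi
    rw [hf']
    simp only [lp.coeFn_smul, Pi.smul_apply, hf x i hi, smul_zero]
  have hone : ∀ x, ρ (m x) (f' x) = 1 := by
    intro x
    rw [hf']
    simp only [map_smul, smul_eq_mul]
    exact inv_mul_cancel₀ (hne x)
  choose j hj using fun x => exists_nat_ge ‖f' x‖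
  have hunc : Uncountable (ℕ → Bool) := by
    rw [← Cardinal.aleph0_lt_mk_iff]
    have h0 : #(ℕ → Bool) = 2 ^ ℵ₀ := by simp
    rw [h0]
    exact Cardinal.cantor _
  -- an infinite fibre
  obtain ⟨q, hq⟩ : ∃ q : ℕ × ℕ, ((fun x => (m x, j x)) ⁻¹' {q}).Infinite := by
    by_contra hfin
    push Not at hfin
    have h1 : (Set.univ : Set (ℕ → Bool)).Countable := by
      have h2 : (Set.univ : Set (ℕ → Bool)) = ⋃ q : ℕ × ℕ, (fun x => (m x, j x)) ⁻¹' {q} := by
        ext x
        simp
      rw [h2]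
      exact Set.countable_iUnion fun q => (hfin q).countable
    exact Set.not_countable_univ h1
  obtain ⟨N, hN⟩ := exists_nat_gt (‖ρ q.1‖ * q.2)
  obtain ⟨S, hS, hcard⟩ := hq.exists_subset_card_eq N
  have hSm : ∀ x ∈ S, m x = q.1 ∧ j x = q.2 := by
    intro x hx
    have h1 := hS hx
    simp only [Set.mem_preimage, Set.mem_singleton_iff] at h1
    exact ⟨congrArg Prod.fst h1, congrArg Prod.snd h1⟩
  have hGfin : (⋃ x ∈ S, ⋃ y ∈ S.erase x, F x ∩ F y).Finite := by
    apply Set.Finite.biUnion S.finite_toSet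
    intro x hx
    apply Set.Finite.biUnion (S.erase x).finite_toSet
    intro y hy
    have hy' : y ∈ S.erase x := hy
    exact hF2 x y (Finset.ne_of_mem_erase hy').symm
  set G : Finset ℕ := hGfin.toFinset with hG
  have hGmem : ∀ x ∈ S, ∀ y ∈ S, x ≠ y → ∀ i, i ∈ F x → i ∈ F y → i ∈ G := by
    intro x hx y hy hxy i h1 h2
    rw [hG, Set.Finite.mem_toFinset]
    simp only [Set.mem_iUnion]
    exact ⟨x, hx, y, Finset.mem_erase.2 ⟨hxy.symm, hy⟩, h1, h2⟩
  set h : (ℕ → Bool) → Linf ℕ := fun x => f' x - ∑ i ∈ G, (f' x : ℕ → ℝ) i • ind {i} with hh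
  have hval : ∀ x k, (h x : ℕ → ℝ) k = if k ∈ G then 0 else (f' x : ℕ → ℝ) k := by
    intro x k
    have e1 : ∀ i, ((ind {i} : Linf ℕ) : ℕ → ℝ) k = if k = i then 1 else 0 := by
      intro i
      show Set.indicator {i} (fun _ => (1 : ℝ)) k = _
      rw [Set.indicator_apply]
      simp only [Set.mem_singleton_iff]
    rw [hh]
    simp only [lp.coeFn_sub, Pi.sub_apply, lp.coeFn_sum, Finset.sum_apply, lp.coeFn_smul, Pi.smul_apply, e1, smul_eq_mul,
      mul_ite, mul_one, mul_zero, Finset.sum_ite_eq]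
    split_ifs <;> simp
  have hρh : ∀ x ∈ S, ρ q.1 (h x) = 1 := by
    intro x hx
    rw [hh]
    simp only [map_sub, map_sum, map_smul, hρ, smul_zero, Finset.sum_const_zero, sub_zero]
    rw [← (hSm x hx).1]
    exact hone x
  have hsum : ρ q.1 (∑ x ∈ S, h x) = N := by
    rw [map_sum, Finset.sum_congr rfl hρh, Finset.sum_const, hcard]
    simp
  have hnorm : ‖∑ x ∈ S, h x‖ ≤ q.2 := by
    refine lp.norm_le_of_forall_le (Nat.cast_nonneg _) fun k => ?_
    rw [lp.coeFn_sum, Finset.sum_apply]
    by_cases hk : ∃ x ∈ S, (h x : ℕ → ℝ) k ≠ 0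
    · obtain ⟨x, hx, hxk⟩ := hk
      rw [hval] at hxk
      have hkG : k ∉ G := fun hkG => hxk (if_pos hkG)
      rw [if_neg hkG] at hxk
      have hkx : k ∈ F x := by
        by_contra hkx
        exact hxk (hf'0 x k hkx)
      rw [Finset.sum_eq_single x]
      · rw [hval, if_neg hkG]
        refine (lp.norm_apply_le_norm (by simp) (f' x) k).trans ?_
        refine (hj x).trans ?_
        rw [(hSm x hx).2]
      · intro y hy hyx
        rw [hval, if_neg hkG]
        apply hf'0
        intro hky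
        exact hkG (hGmem x hx y hy (Ne.symm hyx) k hkx hky)
      · intro hx'
        exact absurd hx hx'
    · push Not at hk
      rw [Finset.sum_eq_zero hk, norm_zero]
      exact Nat.cast_nonneg _
  have h1 : (N : ℝ) ≤ ‖ρ q.1‖ * q.2 := by
    calc (N : ℝ) = ρ q.1 (∑ x ∈ S, h x) := hsum.symm
      _ ≤ ‖ρ q.1 (∑ x ∈ S, h x)‖ := le_abs_self _
      _ ≤ ‖ρ q.1‖ * ‖∑ x ∈ S, h x‖ := (ρ q.1).le_opNorm _
      _ ≤ ‖ρ q.1‖ * q.2 := mul_le_mul_of_nonneg_left hnorm (norm_nonneg _)
  linarith

end USI3
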