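import Pool.Agent.USI3.Defs

set_option autoImplicit false

namespace USI3

open Filter Topology Set
open scoped ENNReal Cardinal

/-- Bounded functions which are constant on the classes of (the equivalence relation generated by) `r` form an injective space. For
`q : Quot r` the functional `y ↦ (t y) i` (`i` any representative of `q`; well defined on `Quot r` by `Quot.lift` or take `i = q.out` and use
`ht` through `Quot.eqvGen_exact`/`Relation.EqvGen` induction) has norm at most `‖t‖`; extend it to `G q : W →L[ℝ] ℝ` with `‖G q‖ ≤ ‖t‖`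
(`exists_extension_norm_eq`). Then `T w = (i ↦ G (Quot.mk r i) w)`, a bounded function with norm at most `‖t‖ * ‖w‖`
(`LinearMap.mkContinuous`). -/
theorem linf_ext.{u, v} {ι : Type u} (r : ι → ι → Prop) {W : Type v} [NormedAddCommGroup W] [NormedSpace ℝ W]
    (S : Submodule ℝ W) (t : S →L[ℝ] Linf ι)
    (ht : ∀ (y : S) (i j : ι), r i j → (t y : ι → ℝ) i = (t y : ι → ℝ) j) :
    ∃ T : W →L[ℝ] Linf ι, (∀ y : S, T (y : W) = t y) ∧
      ∀ (w : W) (i j : ι), r i j → (T w : ι → ℝ) i = (T w : ι → ℝ) j := by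
  have hout : ∀ (y : S) (i : ι), (t y : ι → ℝ) (Quot.mk r i).out = (t y : ι → ℝ) i := by
    intro y i
    have h1 : Quot.mk r (Quot.mk r i).out = Quot.mk r i := Quot.out_eq _
    have h2 := congrArg (Quot.lift (fun i => (t y : ι → ℝ) i) (ht y)) h1
    exact h2
  have hev : ∀ (i : ι), ∃ g : W →L[ℝ] ℝ, (∀ y : S, g y = (t y : ι → ℝ) i) ∧ ‖g‖ ≤ ‖t‖ := by
    intro i
    let f : S →L[ℝ] ℝ := LinearMap.mkContinuous
      { toFun := fun y => (t y : ι → ℝ) i
        map_add' := fun x y => by simp
        map_smul' := fun c y => by simp } ‖t‖ (fun y => by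
          exact (lp.norm_apply_le_norm (by simp) (t y) i).trans (t.le_opNorm y))
    obtain ⟨g, hg1, hg2⟩ := exists_extension_norm_eq S f
    refine ⟨g, fun y => hg1 y, ?_⟩
    rw [hg2]
    exact LinearMap.mkContinuous_norm_le _ (norm_nonneg t) _
  choose G hG1 hG2 using hev
  have hmem : ∀ (w : W) (i : ι), ‖G (Quot.mk r i).out w‖ ≤ ‖t‖ * ‖w‖ := by
    intro w i
    exact ((G _).le_opNorm w).trans (mul_le_mul_of_nonneg_right (hG2 _) (norm_nonneg _))
  let T : W →L[ℝ] Linf ι := LinearMap.mkContinuous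
    { toFun := fun w => ⟨fun i => G (Quot.mk r i).out w, memℓp_infty ⟨‖t‖ * ‖w‖, by
        rintro _ ⟨i, rfl⟩
        exact hmem w i⟩⟩
      map_add' := fun x y => by
        ext i
        simp
      map_smul' := fun c y => by
        ext i
        simp } ‖t‖ (fun w => by
          exact lp.norm_le_of_forall_le (by positivity) fun i => hmem w i)
  have hT : ∀ (w : W) (i : ι), (T w : ι → ℝ) i = G (Quot.mk r i).out w := fun w i => rfl
  refine ⟨T, fun y => ?_, fun w i j hij => ?_⟩
  · ext i
    rw [hT, hG1, hout]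
  · rw [hT, hT, Quot.sound hij]

end USI3
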