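import Pool.Agent.USI3.Defs

set_option autoImplicit false

namespace USI3

open Filter Topology Set
open scoped ENNReal Cardinal

/-- The infimum in the definition of `dens` is attained (`csInf_mem`, the set is nonempty: `Set.univ` is dense);
`Cardinal.countable_iff_lt_aleph_one`. -/
theorem dens_countable.{v} {S : Type v} [TopologicalSpace S] (h : dens S < ℵ₁) :
    ∃ s : Set S, s.Countable ∧ Dense s := by
  have hne : {c | ∃ s : Set S, Dense s ∧ #s = c}.Nonempty :=
    ⟨#(Set.univ : Set S), Set.univ, dense_univ, rfl⟩
  obtain ⟨s, hs, hc⟩ := csInf_mem hne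
  refine ⟨s, ?_, hs⟩
  rw [Cardinal.countable_iff_lt_aleph_one, hc]
  exact h

end USI3
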