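import Pool.Agent.USI3.Defs

set_option autoImplicit false

namespace USI3

open Filter Topology Set
open scoped ENNReal Cardinal

/-- Choose for every `y ∈ s` some `ζ y` with `Inv (ζ y) (t y)`, and let `ζ` be the union of the countably many countable sets `ζ y`, `y ∈ s`.
Then `Inv ζ (t y)` for `y ∈ s` (`Inv_mono`), and `{y | Inv ζ (t y)}` is closed, because evaluations are continuous. -/
theorem EE_common.{v} {S : Type v} [NormedAddCommGroup S] [NormedSpace ℝ S] (s : Set S) (hs : s.Countable) (hd : Dense s)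
    (t : S →L[ℝ] Linf Pt) (ht : ∀ y, t y ∈ EE) : ∃ ζ, ∀ y, Inv ζ (t y : Pt → ℝ) := by
  choose z hz using ht
  have hc : (⋃ y ∈ s, (z y).1).Countable := hs.biUnion fun y _ => (z y).2
  have hle : ∀ y ∈ s, z y ≤ (⟨⋃ y ∈ s, (z y).1, hc⟩ : P) := fun y hy =>
    Set.subset_biUnion_of_mem (u := fun y => (z y).1) hy
  refine ⟨⟨⋃ y ∈ s, (z y).1, hc⟩, fun y γ γ' hr => ?_⟩
  have hev : ∀ γ : Pt, Continuous fun y : S => (t y : Pt → ℝ) γ := by
    intro γ
    have h1 : Continuous fun g : Linf Pt => (g : Pt → ℝ) γ := by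
      refine (LipschitzWith.of_dist_le_mul (K := 1) fun f g => ?_).continuous
      rw [NNReal.coe_one, one_mul, dist_eq_norm, dist_eq_norm]
      have := lp.norm_apply_le_norm (by simp : (∞ : ℝ≥0∞) ≠ 0) (f - g) γ
      simpa using this
    exact h1.comp t.continuous
  have hcl : IsClosed {y : S | (t y : Pt → ℝ) γ = (t y : Pt → ℝ) γ'} :=
    isClosed_eq (hev γ) (hev γ')
  have hsub : s ⊆ {y : S | (t y : Pt → ℝ) γ = (t y : Pt → ℝ) γ'} := fun y hy =>
    Inv_mono (hle y hy) (hz y) γ γ' hr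
  have := hcl.closure_subset_iff.2 hsub
  rw [hd.closure_eq] at this
  exact this (Set.mem_univ y)

end USI3
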