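import Pool.Agent.USI3.Defs
import Pool.Agent.USI3.JA3
import Pool.Agent.USI3.JA4
import Pool.Agent.USI3.JA5

set_option autoImplicit false

namespace USI3

open Filter Topology Set
open scoped ENNReal Cardinal

/-- Compose `t : S → EE` with the inclusion `EE → Linf Pt`; `dens_countable` and `EE_common` give a common `ζ`; `linf_ext` with `r = rel ζ`
gives an extension with values in `{g | Inv ζ g} ⊆ EE`; restrict the codomain (`ContinuousLinearMap.codRestrict`). -/
theorem univInj_EE.{v} : UnivInj.{v} ℵ₁ EE := by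
  intro W _ _ _ S _ hd t
  obtain ⟨s, hs, hsd⟩ := dens_countable hd
  obtain ⟨ζ, hζ⟩ := EE_common s hs hsd (EE.subtypeL.comp t) (fun y => (t y).2)
  obtain ⟨T, hT1, hT2⟩ := linf_ext (rel ζ) S (EE.subtypeL.comp t) (fun y i j h => hζ y i j h)
  exact ⟨T.codRestrict EE (fun w => ⟨ζ, fun γ γ' h => hT2 w γ γ' h⟩),
    fun y => Subtype.ext (hT1 y)⟩

end USI3
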