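import Pool.Agent.USI3.Defs
import Pool.Agent.USI3.JA3

set_option autoImplicit false

namespace USI3

open Filter Topology Set
open scoped ENNReal Cardinal

/-- `linf_ext` with the empty relation. -/
theorem univInj_linf.{v, u} (κ : Cardinal.{v}) (ι : Type u) : UnivInj κ (Linf ι) := by
  intro W _ _ _ S _ _ t
  obtain ⟨T, hT, _⟩ := linf_ext (fun _ _ : ι => False) S t (fun _ _ _ h => h.elim)
  exact ⟨T, hT⟩

end USI3
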