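import Pool.Agent.USI3.Defs

set_option autoImplicit false

namespace USI3

open Filter Topology Set
open scoped ENNReal Cardinal

/-- Compose with `e` and `e.symm`. -/
theorem univInj_congr.{v, u, w} {κ : Cardinal.{v}} {E : Type u} {F : Type w} [NormedAddCommGroup E] [NormedSpace ℝ E]
    [NormedAddCommGroup F] [NormedSpace ℝ F] (e : E ≃L[ℝ] F) (h : UnivInj κ F) : UnivInj κ E := by
  intro W _ _ _ S hS hd t
  obtain ⟨T, hT⟩ := h W S hS hd ((e : E →L[ℝ] F).comp t)
  refine ⟨(e.symm : F →L[ℝ] E).comp T, fun y => ?_⟩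
  rw [ContinuousLinearMap.comp_apply, hT y]
  simp

end USI3
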