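import Pool.Agent.USI3.Defs

set_option autoImplicit false

namespace USI3

open Filter Topology Set
open scoped ENNReal Cardinal

private theorem YY_snd (x : YY) : x.1.1.2 = 0 := x.2

private theorem YY_mem (x : YY) : x.1.1.1 ∈ EE := by
  obtain ⟨ζ, hζ⟩ := x.1.2
  refine ⟨ζ, fun γ γ' hr => ?_⟩
  have h := hζ γ γ' hr
  simp only at h
  rw [YY_snd x, map_zero, map_zero, sub_zero, sub_zero] at h
  exact h

private theorem XX_mem (g : EE) : ((g.1, 0) : Linf Pt × Linf (ℕ × ℕ)) ∈ XX := by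
  obtain ⟨ζ, hζ⟩ := g.2
  refine ⟨ζ, fun γ γ' hr => ?_⟩
  have h := hζ γ γ' hr
  simp only [map_zero, sub_zero]
  exact h

private noncomputable def YY_lin : YY ≃ₗ[ℝ] EE where
  toFun x := ⟨x.1.1.1, YY_mem x⟩
  invFun g := ⟨⟨(g.1, 0), XX_mem g⟩, rfl⟩
  map_add' _ _ := rfl
  map_smul' _ _ := rfl
  left_inv x := by
    apply Subtype.ext
    apply Subtype.ext
    exact Prod.ext rfl (YY_snd x).symm
  right_inv _ := rfl

/-- `(g, 0) ↦ g`. For `x : YY` we have `x.1.1.2 = 0` and so `x.1.1.1 ∈ EE`; conversely `(g, 0) ∈ XX` for `g ∈ EE` as `phi γ 0 = 0`. -/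
theorem YY_equiv : Nonempty (YY ≃L[ℝ] EE) := by
  refine ⟨{ YY_lin with
    continuous_toFun := ?_
    continuous_invFun := ?_ }⟩
  · exact Continuous.subtype_mk
      (continuous_fst.comp (continuous_subtype_val.comp continuous_subtype_val)) _
  · exact Continuous.subtype_mk (Continuous.subtype_mk
      (continuous_subtype_val.prodMk continuous_const) _) _

end USI3
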