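import Pool.Agent.USI3.Defs

set_option autoImplicit false

namespace USI3

open Filter Topology Set
open scoped ENNReal Cardinal

private theorem row_lift_self (k : ℕ) (f : Linf ℕ) : row k (lift k f) = f := by
  ext i
  show (if ((i, k) : ℕ × ℕ).2 = k then (f : ℕ → ℝ) ((i, k) : ℕ × ℕ).1 else 0) = (f : ℕ → ℝ) i
  simp

private theorem row_lift_ne {j k : ℕ} (h : j ≠ k) (f : Linf ℕ) : row j (lift k f) = 0 := by
  ext i
  show (if ((i, j) : ℕ × ℕ).2 = k then (f : ℕ → ℝ) ((i, j) : ℕ × ℕ).1 else 0) = 0
  simp [h]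

/-- Rows of `lift k f`: `row j (lift k f) = if j = k then f else 0`. -/
theorem phi_lift (γ : Pt) (k : ℕ) (f : Linf ℕ) :
    phi γ (lift k f) = if k < γ.n then γ.l (k + 1) * nu γ.A (γ.z k) f else 0 := by
  unfold phi
  rw [ContinuousLinearMap.sum_apply]
  split_ifs with hk
  · rw [Finset.sum_eq_single k]
    · rw [ContinuousLinearMap.smul_apply, ContinuousLinearMap.comp_apply, row_lift_self, smul_eq_mul]
    · intro j _ hj
      rw [ContinuousLinearMap.smul_apply, ContinuousLinearMap.comp_apply, row_lift_ne hj, map_zero, smul_zero]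
    · intro hn
      exact absurd (Finset.mem_range.2 hk) hn
  · refine Finset.sum_eq_zero fun j hj => ?_
    have hj' : j ≠ k := by
      rintro rfl
      exact hk (Finset.mem_range.1 hj)
    rw [ContinuousLinearMap.smul_apply, ContinuousLinearMap.comp_apply, row_lift_ne hj', map_zero, smul_zero]

end USI3
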