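import Pool.Agent.USI3.Defs
import Pool.Agent.USI3.JA1

set_option autoImplicit false

namespace USI3

open Filter Topology Set
open scoped ENNReal Cardinal

private theorem row_ind (k : ℕ) (q : ℕ × ℕ) :
    row k (ind {q} : Linf (ℕ × ℕ)) = if k = q.2 then ind {q.1} else 0 := by
  apply lp.ext
  funext i
  show (Set.indicator ({q} : Set (ℕ × ℕ)) (fun _ => (1 : ℝ)) (i, k) : ℝ) = _
  by_cases hk : k = q.2
  · rw [if_pos hk]
    show _ = Set.indicator ({q.1} : Set ℕ) (fun _ => (1 : ℝ)) i
    by_cases hi : i = q.1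
    · subst hi
      subst hk
      simp
    · have e1 : (i, k) ∉ ({q} : Set (ℕ × ℕ)) := by
        intro h
        apply hi
        have h' : (i, k) = q := h
        rw [← h']
      have e2 : i ∉ ({q.1} : Set ℕ) := hi
      rw [Set.indicator_of_notMem e1, Set.indicator_of_notMem e2]
  · rw [if_neg hk, Set.indicator_of_notMem]
    · rfl
    · intro h
      apply hk
      have h' : (i, k) = q := h
      rw [← h']

private theorem phi_ind (γ : Pt) (q : ℕ × ℕ) : phi γ (ind {q} : Linf (ℕ × ℕ)) = 0 := by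
  unfold phi
  rw [_root_.sum_apply]
  apply Finset.sum_eq_zero
  intro k _
  rw [_root_.smul_apply, ContinuousLinearMap.comp_apply, row_ind]
  by_cases hk : k = q.2
  · rw [if_pos hk, (nu_spec γ.A (γ.z k)).2.2.1 q.1, smul_zero]
  · rw [if_neg hk, map_zero, smul_zero]

/-- `phi γ` vanishes on `ind {q}` (its rows are `0` or `ind {q.1}`; use `nu_spec`), hence on the closed span. -/
theorem phi_c0 (γ : Pt) (h : Linf (ℕ × ℕ))
    (hh : h ∈ (Submodule.span ℝ (Set.range fun q : ℕ × ℕ => (ind {q} : Linf (ℕ × ℕ)))).topologicalClosure) :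
    phi γ h = 0 := by
  have h1 : (Submodule.span ℝ (Set.range fun q : ℕ × ℕ =>
      (ind {q} : Linf (ℕ × ℕ)))).topologicalClosure ≤ (phi γ).ker := by
    apply Submodule.topologicalClosure_minimal
    · rw [Submodule.span_le]
      rintro _ ⟨q, rfl⟩
      exact phi_ind γ q
    · exact (phi γ).isClosed_ker
  exact h1 hh

end USI3
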