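import Pool.Agent.USI3.Defs

set_option autoImplicit false

namespace USI3

open Filter Topology Set
open scoped ENNReal Cardinal

/-- The closed span of a countable set is separable, so it has a countable dense subset, so its density character is `< ℵ₁`. -/
theorem c0_dens : dens (Submodule.span ℝ (Set.range fun q : ℕ × ℕ => (ind {q} : Linf (ℕ × ℕ)))).topologicalClosure < ℵ₁ := by
  have hsep : TopologicalSpace.IsSeparable
      (((Submodule.span ℝ (Set.range fun q : ℕ × ℕ => (ind {q} : Linf (ℕ × ℕ)))).topologicalClosure :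
        Submodule ℝ (Linf (ℕ × ℕ))) : Set (Linf (ℕ × ℕ))) := by
    rw [Submodule.topologicalClosure_coe]
    apply TopologicalSpace.IsSeparable.closure
    apply TopologicalSpace.IsSeparable.span
    exact (Set.countable_range _).isSeparable
  haveI : TopologicalSpace.SeparableSpace
      (Submodule.span ℝ (Set.range fun q : ℕ × ℕ => (ind {q} : Linf (ℕ × ℕ)))).topologicalClosure :=
    hsep.separableSpace
  obtain ⟨s, hsc, hsd⟩ := TopologicalSpace.exists_countable_dense
    (Submodule.span ℝ (Set.range fun q : ℕ × ℕ => (ind {q} : Linf (ℕ × ℕ)))).topologicalClosure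
  have h1 : dens (Submodule.span ℝ (Set.range fun q : ℕ × ℕ => (ind {q} : Linf (ℕ × ℕ)))).topologicalClosure ≤ #s :=
    csInf_le' ⟨s, hsd, rfl⟩
  have h2 : #s ≤ ℵ₀ := Cardinal.le_aleph0_iff_set_countable.mpr hsc
  exact lt_of_le_of_lt (h1.trans h2) Cardinal.aleph0_lt_aleph_one

end USI3
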