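import Pool.Agent.USI3.Defs
import Pool.Agent.USI3.JA2

set_option autoImplicit false

namespace USI3

open Filter Topology Set
open scoped ENNReal Cardinal

/-- evaluation at a point -/
private noncomputable def evAux (q : ℕ × ℕ) : Linf (ℕ × ℕ) →L[ℝ] ℝ :=
  LinearMap.mkContinuous
    { toFun := fun h => (h : ℕ × ℕ → ℝ) q
      map_add' := fun _ _ => rfl
      map_smul' := fun _ _ => rfl } 1 (fun h => by
        rw [one_mul]
        exact lp.norm_apply_le_norm (by simp) h q)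

private noncomputable def rhoAux (T : Linf (ℕ × ℕ) →L[ℝ] XX) (k : ℕ) (q : ℕ × ℕ) : Linf ℕ →L[ℝ] ℝ :=
  (evAux q).comp (((Q.comp T).comp (lift k)) - lift k)

private theorem lift_ind (k i : ℕ) : lift k (ind {i}) = ind {(i, k)} := by
  ext q
  have h1 : (lift k (ind {i}) : ℕ × ℕ → ℝ) q = if q.2 = k then (ind {i} : ℕ → ℝ) q.1 else 0 := rfl
  have h2 : ∀ j : ℕ, (ind {i} : ℕ → ℝ) j = ({i} : Set ℕ).indicator (fun _ => (1 : ℝ)) j := fun _ => rfl
  have h3 : (ind {(i, k)} : ℕ × ℕ → ℝ) q = ({(i, k)} : Set (ℕ × ℕ)).indicator (fun _ => (1 : ℝ)) q := rfl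
  rw [h1, h2, h3]
  obtain ⟨a, b⟩ := q
  by_cases hb : b = k
  · by_cases ha : a = i <;> simp [Set.indicator, ha, hb]
  · simp [Set.indicator, hb]

private theorem rhoAux_ind (T : Linf (ℕ × ℕ) →L[ℝ] XX) (hT : ∀ q : ℕ × ℕ, (T (ind {q})).1.2 = ind {q})
    (k : ℕ) (q : ℕ × ℕ) (i : ℕ) : rhoAux T k q (ind {i}) = 0 := by
  have h2 : rhoAux T k q (ind {i}) =
      ((T (lift k (ind {i}))).1.2 : ℕ × ℕ → ℝ) q - (lift k (ind {i}) : ℕ × ℕ → ℝ) q := rfl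
  rw [h2, lift_ind, hT, sub_self]


/-- Apply `ad_lemma` to the countably many functionals `f ↦ (T (lift k f)).1.2 q - (lift k f) q` on `Linf ℕ` (`k : ℕ`, `q : ℕ × ℕ`), which vanish
on `ind {i}` because `lift k (ind {i}) = ind {(i, k)}`. -/
theorem exists_A (T : Linf (ℕ × ℕ) →L[ℝ] XX) (hT : ∀ q : ℕ × ℕ, (T (ind {q})).1.2 = ind {q}) :
    ∃ A : Set ℕ, A.Infinite ∧ ∀ k, ∀ f : Linf ℕ, (∀ i, i ∉ A → (f : ℕ → ℝ) i = 0) → (T (lift k f)).1.2 = lift k f := by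
  obtain ⟨A, hA, h⟩ := ad_lemma (fun m => rhoAux T (Nat.unpair m).1 (Nat.unpair (Nat.unpair m).2)) (by
    intro m i
    exact rhoAux_ind T hT _ _ i)
  refine ⟨A, hA, fun k f hf => ?_⟩
  ext q
  have h1 := h (Nat.pair k (Nat.pair q.1 q.2)) f hf
  simp only [Nat.unpair_pair] at h1
  have h2 : rhoAux T k q f = ((T (lift k f)).1.2 : ℕ × ℕ → ℝ) q - (lift k f : ℕ × ℕ → ℝ) q := rfl
  have h3 : rhoAux T k q f = 0 := h1
  rw [h2] at h3
  exact sub_eq_zero.mp h3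

end USI3
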