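import Pool.Agent.USI3.Defs
import Pool.Agent.USI3.JA1
import Pool.Agent.USI3.JB1

set_option autoImplicit false

namespace USI3

open Filter Topology Set
open scoped ENNReal Cardinal

/-- The main step. Induction on `k` (`k ≤ n`): there are `z : ℕ → P` monotone, `l : ℕ → ℝ` with `|l i| ≤ 1`, and `h : Linf (ℕ × ℕ)` with `‖h‖ ≤ 1`,
`h (i, j) = 0` for `j ≥ k`, such that `k ≤ (T h).1.1 γ` for all `γ : Pt` with `γ.A = A`, `γ.n = n`, `γ.z i = z i` and `γ.l i = l i` for `i ≤ k`.
Start: `z` constant, `h = 0`. Step: given `z, l, h` for `k < n` let `a ⊆ A` be the set with `nu A (z k) (ind a) = 1` (`nu_spec`) and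
`h' = lift k (ind a)`. By hypothesis `(T h').1.2 = h'`, so by membership of `T h'` in `XX` there is `ζ'` with
`Inv ζ' (γ ↦ (T h').1.1 γ - phi γ h')`. Let the new `z` be `z i` for `i ≤ k` and `sup (z k) ζ'` for `i > k`. All `γ` with `γ.A = A`, `γ.n = n`,
`γ.z i = z i`, `γ.l i = l i` for `i ≤ k`, and `γ.z (k+1) = sup (z k) ζ'` are in relation `rel ζ'` to each other (for `i > k` we have
`ζ' ≤ γ.z (k+1) ≤ γ.z i`). So `(T h').1.1 γ - phi γ h' = c` with one constant `c` for all these `γ` (e.g. the value at the one with constant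
continuation and labels `1` after `k`; if you like take this as the definition of `c`), and `phi γ h' = γ.l (k+1) * 1` by `phi_lift`. Put `l (k+1) = 1`
if `0 ≤ c` and `-1` otherwise; then `l (k+1) * (T h').1.1 γ = |c| + 1 ≥ 1`, and `h + l (k+1) • h'` works for `k + 1`: the norm is `≤ 1` because `h` lives on the
rows `< k` and `h'` is a 0-1 function on the row `k`. -/
theorem game (T : Linf (ℕ × ℕ) →L[ℝ] XX) (A : Set ℕ) (hA : A.Infinite)
    (hT : ∀ k, ∀ f : Linf ℕ, (∀ i, i ∉ A → (f : ℕ → ℝ) i = 0) → (T (lift k f)).1.2 = lift k f) (n : ℕ) :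
    ∀ k ≤ n, ∃ (z : ℕ → P) (l : ℕ → ℝ) (h : Linf (ℕ × ℕ)), Monotone z ∧ (∀ i, |l i| ≤ 1) ∧ ‖h‖ ≤ 1 ∧
      (∀ i j, k ≤ j → (h : ℕ × ℕ → ℝ) (i, j) = 0) ∧
      ∀ γ : Pt, γ.A = A → γ.n = n → (∀ i ≤ k, γ.z i = z i ∧ γ.l i = l i) → (k : ℝ) ≤ ((T h).1.1 : Pt → ℝ) γ := by
  intro k
  induction k with
  | zero =>
    intro _
    refine ⟨fun _ => ⟨∅, Set.countable_empty⟩, fun _ => 0, 0, monotone_const, fun i => by simp, by simp, fun i j _ => by simp, ?_⟩
    intro γ _ _ _
    simp
  | succ k ih =>
    intro hk
    obtain ⟨z, l, h, hz, hl, hn, hh, hg⟩ := ih (by omega)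
    obtain ⟨-, -, -, h4⟩ := nu_spec A (z k)
    obtain ⟨a, haA, hνa⟩ := h4 hA
    have hT' : (T (lift k (ind a))).1.2 = lift k (ind a) := by
      refine hT k (ind a) fun i hi => ?_
      show a.indicator (fun _ => (1 : ℝ)) i = 0
      exact Set.indicator_of_notMem (fun h' => hi (haA h')) _
    obtain ⟨ζ', hζ'⟩ := (T (lift k (ind a))).2
    -- the new sequence
    have hz'mono : Monotone (fun i => if i ≤ k then z i else sup (z k) ζ') := by
      intro i j hij
      by_cases h1 : i ≤ k
      · by_cases h2 : j ≤ k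
        · simp only [h1, h2, if_true]; exact hz hij
        · simp only [h1, h2, if_true, if_false]; exact (hz h1).trans (le_sup_l _ _)
      · have h2 : ¬ j ≤ k := by omega
        simp only [h1, h2, if_false]; exact le_rfl
    set z' : ℕ → P := fun i => if i ≤ k then z i else sup (z k) ζ' with hz'
    let γ0 : Pt :=
      { A := A, n := n, z := z', l := fun i => if i ≤ k then l i else 1, mono := hz'mono,
        hl := fun i => by
          by_cases h1 : i ≤ k
          · simp only [h1, if_true]; exact hl i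
          · simp only [h1, if_false]; norm_num }
    set c : ℝ := ((T (lift k (ind a))).1.1 : Pt → ℝ) γ0 - phi γ0 (lift k (ind a)) with hc
    obtain ⟨ε, hε1, hεc⟩ : ∃ ε : ℝ, ε * ε = 1 ∧ 0 ≤ ε * c := by
      by_cases h0 : 0 ≤ c
      · exact ⟨1, by norm_num, by linarith⟩
      · exact ⟨-1, by norm_num, by linarith⟩
    have hεabs : |ε| ≤ 1 := by
      have : ε ^ 2 = 1 := by rw [sq]; exact hε1
      rw [abs_le]
      constructor <;> nlinarith
    refine ⟨z', fun i => if i ≤ k then l i else ε, h + ε • lift k (ind a), hz'mono, ?_, ?_, ?_, ?_⟩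
    · intro i
      by_cases h1 : i ≤ k
      · simp only [h1, if_true]; exact hl i
      · simp only [h1, if_false]; exact hεabs
    · refine lp.norm_le_of_forall_le (by norm_num) fun q => ?_
      obtain ⟨i, j⟩ := q
      rw [lp.coeFn_add, lp.coeFn_smul, Pi.add_apply, Pi.smul_apply]
      by_cases hj : j = k
      · subst hj
        rw [hh i j le_rfl, zero_add]
        have h1 : (lift j (ind a) : ℕ × ℕ → ℝ) (i, j) = a.indicator (fun _ => (1 : ℝ)) i := by
          show (if (i, j).2 = j then (ind a : ℕ → ℝ) (i, j).1 else 0) = _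
          rw [if_pos rfl]
          rfl
        rw [h1, smul_eq_mul, norm_mul, Real.norm_eq_abs]
        have h2 : ‖a.indicator (fun _ => (1 : ℝ)) i‖ ≤ 1 := by
          by_cases hi : i ∈ a
          · rw [Set.indicator_of_mem hi]; simp
          · rw [Set.indicator_of_notMem hi]; simp
        calc |ε| * _ ≤ 1 * 1 := mul_le_mul hεabs h2 (norm_nonneg _) (by norm_num)
          _ = 1 := one_mul 1
      · have h1 : (lift k (ind a) : ℕ × ℕ → ℝ) (i, j) = 0 := by
          show (if (i, j).2 = k then (ind a : ℕ → ℝ) (i, j).1 else 0) = 0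
          rw [if_neg hj]
        rw [h1, smul_zero, add_zero]
        exact (lp.norm_apply_le_norm (by simp) h (i, j)).trans hn
    · intro i j hj
      rw [lp.coeFn_add, lp.coeFn_smul, Pi.add_apply, Pi.smul_apply, hh i j (by omega)]
      have h1 : (lift k (ind a) : ℕ × ℕ → ℝ) (i, j) = 0 := by
        show (if (i, j).2 = k then (ind a : ℕ → ℝ) (i, j).1 else 0) = 0
        rw [if_neg (by show ¬ j = k; omega)]
      rw [h1, smul_zero, add_zero]
    · intro γ hγA hγn hγ
      have hIH := hg γ hγA hγn (fun i hi => by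
        have := hγ i (by omega)
        simpa only [hz', hi, if_true] using this)
      have hk1 := hγ (k + 1) le_rfl
      have hzk1 : γ.z (k + 1) = sup (z k) ζ' := by
        rw [hk1.1, hz']
        exact if_neg (by omega)
      have hlk1 : γ.l (k + 1) = ε := by
        rw [hk1.2]
        exact if_neg (by omega)
      have hrel : rel ζ' γ γ0 := by
        refine ⟨hγA, hγn, fun i => ?_⟩
        by_cases hi : i ≤ k
        · right
          have := hγ i (by omega)
          refine ⟨this.1, ?_⟩
          rw [this.2]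
          simp only [hi, if_true, γ0]
        · left
          refine ⟨?_, ?_⟩
          · have h1 := γ.mono (show k + 1 ≤ i by omega)
            rw [hzk1] at h1
            exact (le_sup_r _ _).trans h1
          · show ζ' ≤ z' i
            simp only [hz', hi, if_false]
            exact le_sup_r _ _
      have hval := hζ' γ γ0 hrel
      simp only [hT'] at hval
      have hphi : phi γ (lift k (ind a)) = ε := by
        rw [phi_lift, if_pos (by rw [hγn]; omega), hlk1, hγA]
        have : γ.z k = z k := by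
          rw [(hγ k (by omega)).1, hz']
          exact if_pos le_rfl
        rw [this, hνa, mul_one]
      have hv : ((T (lift k (ind a))).1.1 : Pt → ℝ) γ = c + ε := by
        rw [hc]
        linarith
      have hsum : ((T (h + ε • lift k (ind a))).1.1 : Pt → ℝ) γ
          = ((T h).1.1 : Pt → ℝ) γ + ε * ((T (lift k (ind a))).1.1 : Pt → ℝ) γ := by
        rw [map_add, map_smul]
        rfl
      rw [hsum, hv]
      push_cast
      nlinarith

end USI3
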