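import Pool.Agent.USI3.Defs
import Pool.Agent.USI3.JB4a
import Pool.Agent.USI3.JB4b

set_option autoImplicit false

namespace USI3

open Filter Topology Set
open scoped ENNReal Cardinal

/-- `exists_A` gives `A`; `game` with `k = n > ‖T‖` gives `h` with `‖h‖ ≤ 1` and a point `γ` (the point with `A, n, z, l` themselves) where
`(T h).1.1 γ ≥ n > ‖T‖ ≥ ‖T h‖ ≥ |(T h).1.1 γ|`. Contradiction. -/
theorem no_ext (T : Linf (ℕ × ℕ) →L[ℝ] XX) (hT : ∀ q : ℕ × ℕ, (T (ind {q})).1.2 = ind {q}) : False := by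
  obtain ⟨A, hA, hA2⟩ := exists_A T hT
  obtain ⟨n, hn⟩ := exists_nat_gt ‖T‖
  obtain ⟨z, l, h, hz, hl, hh, _, hγ⟩ := game T A hA hA2 n n le_rfl
  have h1 := hγ ⟨A, n, z, l, hz, hl⟩ rfl rfl (fun i _ => ⟨rfl, rfl⟩)
  have h2 : ‖T h‖ ≤ ‖T‖ := by
    calc ‖T h‖ ≤ ‖T‖ * ‖h‖ := T.le_opNorm h
      _ ≤ ‖T‖ * 1 := mul_le_mul_of_nonneg_left hh (ContinuousLinearMap.opNorm_nonneg T)
      _ = ‖T‖ := mul_one _
  have h3 : ‖(T h).1.1‖ ≤ ‖T h‖ := norm_fst_le (T h).1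
  have h4 : ‖((T h).1.1 : Pt → ℝ) ⟨A, n, z, l, hz, hl⟩‖ ≤ ‖(T h).1.1‖ :=
    lp.norm_apply_le_norm (by simp) (T h).1.1 _
  have h5 := (le_abs_self _).trans ((Real.norm_eq_abs _).symm.le.trans h4)
  linarith

end USI3
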