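import Pool.Agent.USI3.Defs
import Pool.Agent.USI3.JB2
import Pool.Agent.USI3.JB3
import Pool.Agent.USI3.JB5

set_option autoImplicit false

namespace USI3

open Filter Topology Set
open scoped ENNReal Cardinal

/-- Let `S` be the closed span of the `ind {q}` in `W = Linf (ℕ × ℕ)` (`c0_dens`) and `t : S → XX`, `t h = (0, h)`, which is in `XX` by
`phi_c0`. An extension `T` of `t` contradicts `no_ext`. -/
theorem not_univInj_XX : ¬ UnivInj.{0} ℵ₁ XX := by
  intro hU
  have hmem : ∀ h : (Submodule.span ℝ (Set.range fun q : ℕ × ℕ =>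
      (ind {q} : Linf (ℕ × ℕ)))).topologicalClosure,
      ((0 : _ →L[ℝ] Linf Pt).prod (Submodule.span ℝ (Set.range fun q : ℕ × ℕ =>
      (ind {q} : Linf (ℕ × ℕ)))).topologicalClosure.subtypeL) h ∈ XX := by
    intro h
    refine ⟨⟨∅, Set.countable_empty⟩, fun γ γ' _ => ?_⟩
    have h1 := phi_c0 γ h h.2
    have h2 := phi_c0 γ' h h.2
    simp [h1, h2]
  obtain ⟨T, hT⟩ := hU (Linf (ℕ × ℕ)) (Submodule.span ℝ (Set.range fun q : ℕ × ℕ =>
      (ind {q} : Linf (ℕ × ℕ)))).topologicalClosure (Submodule.isClosed_topologicalClosure _)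
      c0_dens (ContinuousLinearMap.codRestrict _ XX hmem)
  refine no_ext T fun q => ?_
  have hq : (ind {q} : Linf (ℕ × ℕ)) ∈ (Submodule.span ℝ (Set.range fun q : ℕ × ℕ =>
      (ind {q} : Linf (ℕ × ℕ)))).topologicalClosure :=
    Submodule.le_topologicalClosure _ (Submodule.subset_span ⟨q, rfl⟩)
  have h1 := hT ⟨ind {q}, hq⟩
  rw [h1]
  rfl

end USI3
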