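import Pool.Agent.USI3.Defs
import Pool.Agent.USI3.JA10
import Pool.Agent.USI3.JA12
import Pool.Agent.USI3.JA6
import Pool.Agent.USI3.JA7
import Pool.Agent.USI3.JA8
import Pool.Agent.USI3.JA9
import Pool.Agent.USI3.JB6

set_option autoImplicit false

namespace USI3

open Filter Topology Set
open scoped ENNReal Cardinal

/-- Assemble: `X = XX` (complete by `XX_closed`), `Y = YY`, `univInj_congr` with `YY_equiv`, `univInj_EE`, `quot_equiv`, `univInj_linf`. -/
theorem main.{v} : ∃ (X : Type) (_ : NormedAddCommGroup X) (_ : NormedSpace ℝ X) (_ : CompleteSpace X)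
    (Y : Submodule ℝ X) (_ : IsClosed (Y : Set X)),
    UnivInj.{v} ℵ₁ Y ∧ UnivInj.{v} ℵ₁ (X ⧸ Y) ∧ ¬ UnivInj.{0} ℵ₁ X := by
  have : CompleteSpace XX := XX_closed.completeSpace_coe
  obtain ⟨e1⟩ := YY_equiv
  obtain ⟨e2⟩ := quot_equiv
  refine ⟨XX, inferInstance, inferInstance, inferInstance, YY, inferInstance, ?_, ?_, ?_⟩
  · exact univInj_congr e1 univInj_EE
  · exact univInj_congr e2 (univInj_linf _ _)
  · exact not_univInj_XX

end USI3
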